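import Pool.Agent.V7H87.LT.A
import Pool.Agent.N375.AV.Ex
import Pool.Agent.Results.MP_e426f4_ag.ProductsOfConics

/-!
# Rational points of the varieties `yᵢ² - aᵢ zᵢ² = bᵢ t (f(t) + k)` for ALL integers `k` near the values of additive functions

Let `F` be a composition of functions dominated by the largest prime factor: additive functions `g` with `g (q^j) ≤ C q^j` at the
prime powers and with different values at different large primes (for example the sum of the prime factors), the largest prime
factor, Kempner's function. Let `G` be a function with steps `≥ a > 0` and at most linear growth, for instance `G v = α v`. There is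
ONE set `D` of natural numbers with fewer than `M / (log M)^U` elements up to `M`, for all `U` and all large `M`, such that for
ALL polynomials `f` of degree at least one, ALL families of nonzero `aᵢ`, `bᵢ`, ALL finite sets `T` of primes which contain the
bad ones, ALL levels `N`, ALL `W` and all large `m` not in `D`: for ALL integers `k` with `||k| - G (F m)| ≤ (1 + log F(m))^W`
the rational points of the variety `W_k : yᵢ² - aᵢ zᵢ² = bᵢ t (f(t) + k) ≠ 0` approximate, to the level `N` at `T`, all
families of points orthogonal to the algebras `(aᵢ, t)`.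

The starting theorem `ProductsOfConics` says this for almost all integers `k`, with a saving of every power of the logarithm. The
values of `F` are much smaller than `m` and are taken with very large multiplicities, so that this is not a
consequence of the count alone: the preimage under `F` of a set with a saving of every power of the logarithm has such a saving
(`Pool/Agent/N375/AV`; write `m = u p`, `p` the largest prime factor). Countably many such sets are, up to finitely
many elements, contained in one such set (`Pool/Agent/V7H87/LT`).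
-/

set_option autoImplicit false

namespace Pool.Agent.Results.MP_e426f4_ag.AdditiveValuesH87

open Finset Polynomial
open Pool.Agent.N733.TG (Expanding expanding_pow)
open Pool.Agent.N375.AV (PD comp LogThin near_log comp_log logThin_of pd_additive pd_sopfr pd_largest pd_kempner)
open ProductsOfConics (WB)

/-- the finite set `T` contains the primes up to `2 deg f` and those dividing the leading coefficient of `f`, an `aᵢ` or a `bᵢ` -/
def Bad {r : ℕ} (f : ℤ[X]) (a b : Fin r → ℤ) (T : Finset Nat.Primes) : Prop :=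
  ∀ p : Nat.Primes, ((p : ℕ) ≤ 2 * f.natDegree ∨ ((p : ℕ) : ℤ) ∣ f.leadingCoeff * ∏ i, (a i * b i)) → p ∈ T

/-- the data -/
abbrev I : Type := Σ r : ℕ, ℤ[X] × (Fin r → ℤ) × (Fin r → ℤ) × Finset Nat.Primes × ℕ

lemma countable_I : Countable I := by
  have : Countable ℤ[X] := by
    rw [← Cardinal.mk_le_aleph0_iff]
    refine (Polynomial.cardinalMk_le_max).trans ?_
    simp
  infer_instance

/-- the exceptional integers -/
def P (p : I) (k : ℤ) : Prop :=
  (1 ≤ p.2.1.natDegree ∧ (∀ i, p.2.2.1 i ≠ 0) ∧ (∀ i, p.2.2.2.1 i ≠ 0) ∧ Bad p.2.1 p.2.2.1 p.2.2.2.1 p.2.2.2.2.1) ∧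
    ¬ WB p.2.1 p.2.2.1 p.2.2.2.1 p.2.2.2.2.1 p.2.2.2.2.2 k

/-- their absolute values -/
def E (p : I) : Set ℕ := {n | ∃ k : ℤ, k.natAbs = n ∧ P p k}

lemma thin (p : I) : LogThin (E p) := by
  classical
  obtain ⟨r, f, a, b, T, N⟩ := p
  by_cases h : 1 ≤ f.natDegree ∧ (∀ i, a i ≠ 0) ∧ (∀ i, b i ≠ 0) ∧ Bad f a b T
  · refine logThin_of (fun B => ?_)
    obtain ⟨X₀, hX⟩ := ProductsOfConics.result r f h.1 a b h.2.1 h.2.2.1 T h.2.2.2 N ⌈B⌉₊
    refine ⟨max X₀ 3, fun X h1 => ?_⟩
    have hX3 : 3 ≤ X := (le_max_right _ _).trans h1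
    have hl1 : 1 ≤ Real.log X := by
      rw [Real.le_log_iff_exp_le (by exact_mod_cast (by omega : 0 < X))]
      have := Real.exp_one_lt_d9
      have h5 : (3 : ℝ) ≤ X := by exact_mod_cast hX3
      linarith
    have h2 := hX X ((le_max_left _ _).trans h1)
    have h3 : (Icc 1 X).filter (fun n => n ∈ E ⟨r, f, a, b, T, N⟩) ⊆
        ((Icc (-(X : ℤ)) X).filter (fun k => ¬ WB f a b T N k)).image Int.natAbs := by
      intro n hn
      rw [mem_filter, mem_Icc] at hn
      obtain ⟨⟨h4, h5⟩, k, hk, hPk⟩ := hn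
      rw [mem_image]
      refine ⟨k, ?_, hk⟩
      rw [mem_filter, mem_Icc]
      exact ⟨by omega, hPk.2⟩
    have h4 := (card_le_card h3).trans card_image_le
    have h5 : (((Icc 1 X).filter (fun n => n ∈ E ⟨r, f, a, b, T, N⟩)).card : ℝ) ≤ X / Real.log X ^ ⌈B⌉₊ :=
      le_trans (by exact_mod_cast h4) h2
    have h6 : Real.log X ^ B ≤ Real.log X ^ ⌈B⌉₊ := by
      rw [← Real.rpow_natCast]
      exact Real.rpow_le_rpow_of_exponent_le hl1 (Nat.le_ceil B)
    refine le_trans (le_of_eq ?_) (h5.trans (div_le_div_of_nonneg_left (Nat.cast_nonneg _)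
      (Real.rpow_pos_of_pos (by linarith) _) h6))
    congr!
  · have e : E ⟨r, f, a, b, T, N⟩ = ∅ := by
      rw [Set.eq_empty_iff_forall_notMem]
      rintro n ⟨k, -, hk⟩
      exact h hk.1
    rw [e]
    exact Pool.Agent.V7H87.LT.empty

/-- **Theorem.** (1) Let `F = comp fs` be a composition of functions dominated by the largest prime factor (`PD`) and let `G` have
steps at least `a > 0` and at most linear growth (`Expanding G 1`). There is ONE set `D` with at most `M / (log M)^U` elements up
to `M`, for all `U` and all large `M`, such that for ALL `f` of degree at least one, all nonzero `aᵢ`, `bᵢ`, all finite sets `T`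
of primes which contain the bad ones (`Bad`), all levels `N`, all `W` and all large `m` not in `D`, the condition `WB`
(approximation of level `N` at `T` of the points orthogonal to the algebras `(aᵢ, t)`) holds for ALL integers `k` with
`||k| - G (F m)| ≤ (1 + log F(m)) ^ W`. (2) Examples of functions dominated by the largest prime factor: the additive functions
with `g (q^j) ≤ C q^j` and different values at different large primes, the sum of the prime factors with multiplicity,
the largest prime factor, Kempner's function. (3) `G v = α v`, `α > 0`, is possible. -/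
theorem result :
    (∀ fs : List (ℕ → ℕ), (∀ g ∈ fs, PD g) → ∀ G : ℕ → ℝ, Expanding G 1 →
      ∃ D : Set ℕ, (∀ U : ℕ, ∃ M₀ : ℕ, ∀ M : ℕ, M₀ ≤ M →
          ({m : ℕ | m ≤ M ∧ m ∈ D}.ncard : ℝ) ≤ M / Real.log M ^ U) ∧
        ∀ (r : ℕ) (f : ℤ[X]) (a b : Fin r → ℤ) (T : Finset Nat.Primes), 1 ≤ f.natDegree → (∀ i, a i ≠ 0) → (∀ i, b i ≠ 0) →
          Bad f a b T → ∀ N W : ℕ, ∃ m₀ : ℕ, ∀ m : ℕ, m₀ ≤ m → m ∉ D →
            ∀ k : ℤ, |(|k| : ℝ) - G (comp fs m)| ≤ (1 + Real.log (comp fs m)) ^ W → WB f a b T N k) ∧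
    ((∀ g : ℕ → ℕ, (∀ x y : ℕ, Nat.Coprime x y → g (x * y) = g x + g y) →
        (∃ C : ℕ, ∀ q j : ℕ, q.Prime → 1 ≤ j → g (q ^ j) ≤ C * q ^ j) →
        (∃ Q : ℕ, ∀ p q : ℕ, p.Prime → q.Prime → Q ≤ p → Q ≤ q → g p = g q → p = q) → PD g) ∧
      PD (fun n => n.primeFactorsList.sum) ∧ PD (fun n => n.primeFactors.sup id) ∧
      PD (fun n => sInf {k : ℕ | n ∣ k.factorial})) ∧
    ∀ α : ℝ, 0 < α → Expanding (fun v => α * (v : ℝ)) 1 := by
  classical
  refine ⟨fun fs hfs G hG => ?_, ⟨fun g h1 h2 h3 => pd_additive h1 h2 h3, pd_sopfr, pd_largest, pd_kempner⟩, fun α hα => ?_⟩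
  · have := countable_I
    obtain ⟨D, hD, h1⟩ := Pool.Agent.V7H87.LT.diag (ι := I × ℕ)
      (E := fun q => comp fs ⁻¹' {v : ℕ | ∃ n ∈ E q.1, |(n : ℝ) - G v| ≤ (1 + Real.log v) ^ q.2})
      (fun q => comp_log fs hfs (near_log (thin q.1) hG q.2))
    refine ⟨D, fun U => ?_, fun r f a b T hf ha hb hT N W => ?_⟩
    · obtain ⟨M₀, hM⟩ := Pool.Agent.V7H87.LT.usual hD U
      refine ⟨max M₀ 3, fun M h2 => ?_⟩
      have hM3 : 3 ≤ M := (le_max_right _ _).trans h2
      have hl1 : 1 ≤ Real.log M := by
        rw [Real.le_log_iff_exp_le (by exact_mod_cast (by omega : 0 < M))]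
        have := Real.exp_one_lt_d9
        have h5 : (3 : ℝ) ≤ M := by exact_mod_cast hM3
        linarith
      have h3 := hM M ((le_max_left _ _).trans h2)
      have h4 : {m : ℕ | m ≤ M ∧ m ∈ D} = (((range (M + 1)).filter (fun v => v ∈ D) : Finset ℕ) : Set ℕ) := by
        ext m
        rw [mem_coe, mem_filter, mem_range]
        exact ⟨fun h => ⟨by have := h.1; omega, h.2⟩, fun h => ⟨by have := h.1; omega, h.2⟩⟩
      rw [h4, Set.ncard_coe_finset]
      refine h3.trans (div_le_div_of_nonneg_left (Nat.cast_nonneg _) (by positivity) ?_)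
      exact pow_le_pow_left₀ (by linarith) (by linarith) U
    · obtain ⟨m₀, hm₀⟩ := h1 (⟨r, f, a, b, T, N⟩, W)
      refine ⟨m₀, fun m hm hmD k hk => ?_⟩
      by_contra hcon
      refine hmD (hm₀ m hm ⟨k.natAbs, ⟨k, rfl, ⟨hf, ha, hb, hT⟩, hcon⟩, ?_⟩)
      have e : ((k.natAbs : ℕ) : ℝ) = (|k| : ℝ) := by
        rw [Nat.cast_natAbs, Int.cast_abs]
      show |((k.natAbs : ℕ) : ℝ) - G (comp fs m)| ≤ (1 + Real.log (comp fs m)) ^ W
      rw [e]
      exact hk
  · have := expanding_pow hα (le_refl (1 : ℝ))
    simpa using this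

end Pool.Agent.Results.MP_e426f4_ag.AdditiveValuesH87
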