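import Pool.Agent.V7H24.TR.Poly
import Pool.Agent.V7H24.TR.Conv
import Pool.Agent.Results.MP_e426f4_ag.ProductsOfConics

/-!
# Brauer-Manin for the fibrations `yᵢ² - aᵢ zᵢ² = bᵢ t (f(t) + k)` for ALL divisors `k` of polynomial values at almost all integers

Let `f` be any integral polynomial of degree at least one, `aᵢ`, `bᵢ` nonzero integers, `i < r`, `T` a finite set of primes which
contains the primes up to `2 deg f` and the divisors of `lead(f) ∏ aᵢ bᵢ`, and `L` a level. The integer `k` is good if the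
fibration `W_k : yᵢ² - aᵢ zᵢ² = bᵢ t (f(t) + k) ≠ 0` in products of conics has the property `WB` of the starting theorem
`ProductsOfConics`: every family of local points of level `L` which is orthogonal to the classes `(aᵢ, t)` is approximated by
rational points. Let `F` be an integral polynomial without multiple complex roots, for instance `X`, `X ^ 2 + 1`, `X ^ n - 1`.

We show that for all `m ≤ N` but `N / (log N) ^ U` (every `U`), for all integers `l` with `|l - m| ≤ (log N) ^ A` and ALL divisors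
`d` of `F (l)` with `exp ((log N) ^ ε) ≤ d ≤ N (log N) ^ C` ALL integers `k` with `||k| - d| ≤ (1 + log d) ^ W` are good. As
`U` is arbitrary this applies to the divisors of `F (p)` for almost all primes `p`.

The starting theorem says that the good `k` are all `|k| ≤ X` but `X / (log X) ^ U`; the divisors of the `F (l)` are of all sizes, and
the number of those up to `N` is on average a power of `log N`. Proof: `Pool/Agent/V7H24/TR/Poly.lean`; the number of the roots of
`F` modulo `d` is at most `C_F (1 + deg F) ^ ω(d)`, and a second moment removes this weight.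
-/

set_option autoImplicit false

namespace Pool.Agent.Results.MP_e426f4_ag.PolynomialDivisorsH24

open Pool.Agent.Results.MP_e426f4_ag.ProductsOfConics (WB)
open Polynomial

/-- For all `m ≤ N` but `N / (log N) ^ U`, for all `l` with `|l - m| ≤ (log N) ^ A` and all divisors `d` of `F (l)` with
`exp ((log N) ^ ε) ≤ d ≤ N (log N) ^ C` ALL integers `k` with `||k| - d| ≤ (1 + log d) ^ W` have the property `P`; for all `ε > 0`
and all `A`, `C`, `W`, `U` and all large `N`. -/
def AroundDivisorsOf (F : ℤ[X]) (P : ℤ → Prop) : Prop :=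
  ∀ ε : ℝ, 0 < ε → ∀ A C W U : ℕ, ∃ N₀ : ℕ, ∀ N : ℕ, N₀ ≤ N →
    ({m : ℕ | 1 ≤ m ∧ m ≤ N ∧ ∃ l : ℕ, 1 ≤ l ∧ |(l : ℝ) - m| ≤ Real.log N ^ A ∧ ∃ d : ℕ, (d : ℤ) ∣ F.eval (l : ℤ) ∧
      Real.exp (Real.log N ^ ε) ≤ d ∧ (d : ℝ) ≤ N * Real.log N ^ C ∧
      ∃ k : ℤ, |(|k| : ℝ) - d| ≤ (1 + Real.log d) ^ W ∧ ¬ P k}.ncard : ℝ) ≤ N / Real.log N ^ U

/-- **Theorem.** Let `f` be of degree at least one, `aᵢ`, `bᵢ` nonzero integers, `T` a finite set of primes which contains the
primes up to `2 deg f` and those dividing `lead(f)`, an `aᵢ` or a `bᵢ`, and `L` a level. For all `F` separable over the rationals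
the condition `WB` (approximation of level `L` at `T` of the points orthogonal to the algebras `(aᵢ, t)`) holds around all the
divisors of the values of `F` at almost all integers, in the sense of `AroundDivisorsOf`. -/
theorem result (r : ℕ) (f : ℤ[X]) (hf : 1 ≤ f.natDegree) (a b : Fin r → ℤ) (ha : ∀ i, a i ≠ 0) (hb : ∀ i, b i ≠ 0)
    (T : Finset Nat.Primes)
    (hT : ∀ p : Nat.Primes, ((p : ℕ) ≤ 2 * f.natDegree ∨ ((p : ℕ) : ℤ) ∣ f.leadingCoeff * ∏ i, (a i * b i)) → p ∈ T)
    (L : ℕ) (F : ℤ[X]) (hF : (F.map (Int.castRingHom ℚ)).Separable) : AroundDivisorsOf F (WB f a b T L) := by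
  have hE := Pool.Agent.V7H24.TR.logThin_int (WB f a b T L) (fun U => by
    obtain ⟨X₀, h⟩ := ProductsOfConics.result r f hf a b ha hb T hT L U
    refine ⟨X₀, fun X hX => le_trans (le_of_eq ?_) (h X hX)⟩
    congr!)
  intro ε hε A C W U
  obtain ⟨N₀, hN₀⟩ := Pool.Agent.V7H24.TR.poly_good hE (fun n : ℕ => WB f a b T L n ∧ WB f a b T L (-(n : ℤ)))
    ⟨0, fun n _ hn => by
      by_contra hcon
      exact hn hcon⟩ hF ε hε A C W U
  refine ⟨N₀, fun N hN => le_trans ?_ (hN₀ N hN)⟩
  apply Nat.cast_le.2
  apply Set.ncard_le_ncard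
  · rintro m ⟨h1, h2, l, h3, h4, d, h5, h6, h7, k, h8, h9⟩
    refine ⟨h1, h2, l, h3, h4, d, h5, h6, h7, k.natAbs, ?_, ?_⟩
    · have : ((k.natAbs : ℕ) : ℝ) = |(k : ℝ)| := by
        rw [Nat.cast_natAbs, Int.cast_abs]
      rw [this]
      exact h8
    · rintro ⟨h10, h11⟩
      apply h9
      rcases Int.natAbs_eq k with h | h
      · rw [h]
        exact h10
      · rw [h]
        exact h11
  · exact (Set.finite_Iic N).subset fun m hm => hm.2.1

end Pool.Agent.Results.MP_e426f4_ag.PolynomialDivisorsH24
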