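import Pool.Agent.V7H73.RF.SVFinal
import Pool.Agent.V7H73.RF.ProdDiag
import Pool.Agent.Y716.D.Main
import Pool.Agent.Z864.C.Minor

/-!
# Rational points on 100% of the families of Fano complete intersections

Let `n ≥ 3` and let `d_1, …, d_s ≥ 2` be degrees with `d_1 + … + d_s ≤ n` (Fano complete intersections in
`ℙⁿ`).  Let `B` be a projective variety over `ℚ`, let `(b_κ)` be sections of a line bundle `L` on `B`, let
`F = (F_{κ,j})` be forms of degree `d_j` in `n + 1` variables with integral coefficients, and let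

  `X_F : ∑_κ b_κ F_{κ,j}(x) = 0` (`j = 1, …, s`)   in `ℙⁿ × B`,

a random family of Fano complete intersections over `B`, given by sections of `O(d_j) ⊠ L`.

First part: `B = ℙ^{r_1} × … × ℙ^{r_a}` is any product of projective spaces and `L = O(E_1, …, E_a)` any
ample line bundle, with its monomial sections; so `X_F` runs over ALL the complete intersections of
multidegree `(d_j; E_1, …, E_a)` in `ℙⁿ × ℙ^{r_1} × … × ℙ^{r_a}`.  A positive proportion of them has a
rational point, and 100% of those which have points over the real numbers and all the `p`-adic fields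
satisfy weak approximation (hence the Hasse principle), with a precision that tends to infinity with the
height.  There is no condition on the local points: they may be singular, on the total space or in the
fibre.

Second part: `B ⊆ ℙ^r` is ANY projective variety which is smooth at its real and `p`-adic points, with
`L = O(1)`, and `𝓑` is a nonempty set of rational points of `B` whose closure in
`B(ℝ) × ∏_{p ≤ w} B(ℚ_p)` is open for all `w` (`𝓑 = B(ℚ)`, for instance).  Then a positive proportion of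
the `X_F` has a rational point over `𝓑`, and for 100% of the `X_F` which have an adelic point over the
closure of `𝓑` ALL these adelic points are approximated by rational points over `𝓑`, with a precision that
tends to infinity with the height; there is again no condition of nonsingularity on the points of `X_F`.
In words: for 100% of the `X_F` there is no obstruction to the existence and the approximation of rational
points besides the one of the base `B`.  If `B(ℚ)` is dense in the Brauer-Manin set of `B` and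
`Br(B)/Br(ℚ)` is finite (as is conjectured by Colliot-Thélène for rationally connected `B`, and known for
many classes of `B`), then the closure of `B(ℚ)` is open, the Brauer-Manin set of `X_F` consists of adelic
points over this closure, and so 100% of the `X_F` with a nonempty Brauer-Manin set have rational points,
which approximate all the points of this set with precision `1 / m(H)`.  (These remarks on Brauer groups
are not formalised.)
-/

set_option autoImplicit false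

namespace Pool.Agent.Results.MP_e426f4_ag.RandomFanoFibrationsH73

open Filter Topology

/-- The families of `s` forms `F k j`, `k ∈ κ`, of degrees `d j` in `n + 1` variables whose coefficients
are integers of absolute value at most `H`. -/
def Families (κ : Type) (n : ℕ) {s : ℕ} (d : Fin s → ℕ) (H : ℕ) :
    Set (κ → Fin s → MvPolynomial (Fin (n + 1)) ℤ) :=
  {F | ∀ k j, (F k j).IsHomogeneous (d j) ∧ ∀ a, |(F k j).coeff a| ≤ (H : ℤ)}

/-- The pair `(x, b)` is a zero of `∑_k b_k F_{k,j}(x)` for all `j`. -/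
def Zero {n s : ℕ} {κ : Type} [Fintype κ] (F : κ → Fin s → MvPolynomial (Fin (n + 1)) ℤ)
    {K : Type} [Field K] (x : Fin (n + 1) → K) (b : κ → K) : Prop :=
  ∀ j, ∑ k, b k * MvPolynomial.aeval x (F k j) = 0

/-- The point of the projective space over `K` with coordinates `x` is at distance at most `δ` from the
rational point with coordinates `y` (for this, `x` is to be normalised; otherwise `δ` is to be multiplied
by `‖x‖`). -/
def Near {α K : Type} [NormedField K] (δ : ℝ) (x : α → K) (y : α → ℤ) : Prop :=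
  ∃ c : K, c ≠ 0 ∧ ∀ i, ‖x i - c * (y i : K)‖ ≤ δ

/-! ### Products of projective spaces -/

/-- The exponents of the monomials of multidegree `(E 0, E 1, …)` in `a` blocks of variables, the block `i`
having `r i + 1` variables. -/
abbrev Expo {a : ℕ} (r E : Fin a → ℕ) : Type :=
  {μ : (i : Fin a) → Fin (r i + 1) → Fin (E i + 1) // ∀ i, ∑ j, (μ i j : ℕ) = E i}

/-- The value at `t` of the monomial with exponent `μ`. -/
def mon {a : ℕ} {r E : Fin a → ℕ} {K : Type} [Field K] (t : (i : Fin a) → Fin (r i + 1) → K)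
    (μ : Expo r E) : K :=
  ∏ i, ∏ j, t i j ^ (μ.1 i j : ℕ)

/-- `(x, t)` represents a point over `K` of the complete intersection `∑_μ t^μ F_{μ,j}(x) = 0` of
multidegree `(d_j; E 0, E 1, …)` in `ℙⁿ × ℙ^(r 0) × ℙ^(r 1) × …`. -/
def IsPoint {n s a : ℕ} {r E : Fin a → ℕ} (F : Expo r E → Fin s → MvPolynomial (Fin (n + 1)) ℤ)
    {K : Type} [Field K] (x : Fin (n + 1) → K) (t : (i : Fin a) → Fin (r i + 1) → K) : Prop :=
  x ≠ 0 ∧ (∀ i, t i ≠ 0) ∧ Zero F x (mon t)

/-- The complete intersection has a point over `K`. -/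
def HasPoint {n s a : ℕ} {r E : Fin a → ℕ} (K : Type) [Field K]
    (F : Expo r E → Fin s → MvPolynomial (Fin (n + 1)) ℤ) : Prop :=
  ∃ (x : Fin (n + 1) → K) (t : (i : Fin a) → Fin (r i + 1) → K), IsPoint F x t

/-- Points over the real numbers and over all the `p`-adic fields. -/
def Els {n s a : ℕ} {r E : Fin a → ℕ}
    (F : Expo r E → Fin s → MvPolynomial (Fin (n + 1)) ℤ) : Prop :=
  HasPoint ℝ F ∧ ∀ (p : ℕ) [Fact p.Prime], HasPoint ℚ_[p] F

/-- Weak approximation with precision `1 / m`: for all points `(x_p, t_p)` over the `p`-adic fields and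
`(x', t')` over the real numbers there is a rational point at distance at most `1 / m` from them, in each
factor, at the primes `p ≤ m` and at the real place. -/
def WeakAppr {n s a : ℕ} {r E : Fin a → ℕ} (m : ℕ)
    (F : Expo r E → Fin s → MvPolynomial (Fin (n + 1)) ℤ) : Prop :=
  ∀ (x : ∀ (p : ℕ) [Fact p.Prime], Fin (n + 1) → ℚ_[p])
    (t : ∀ (p : ℕ) [Fact p.Prime], (i : Fin a) → Fin (r i + 1) → ℚ_[p])
    (x' : Fin (n + 1) → ℝ) (t' : (i : Fin a) → Fin (r i + 1) → ℝ),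
    (∀ (p : ℕ) [Fact p.Prime], IsPoint F (x p) (t p)) → IsPoint F x' t' →
    ∃ (z : Fin (n + 1) → ℤ) (y : (i : Fin a) → Fin (r i + 1) → ℤ),
      IsPoint F (fun i => (z i : ℚ)) (fun i j => (y i j : ℚ)) ∧
      (∀ (p : ℕ) [Fact p.Prime], p ≤ m → Near (‖x p‖ * (1 / m)) (x p) z ∧
        ∀ l, Near (‖t p l‖ * (1 / m)) (t p l) (y l)) ∧
      Near (‖x'‖ * (1 / m)) x' z ∧ ∀ l, Near (‖t' l‖ * (1 / m)) (t' l) (y l)

/-! ### Smooth bases -/

/-- `b` satisfies the equations of the base `B ⊆ ℙ^r`. -/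
def OnBase {r M : ℕ} (eqs : Fin M → MvPolynomial (Fin (r + 1)) ℤ) {K : Type} [Field K]
    (b : Fin (r + 1) → K) : Prop :=
  ∀ m, MvPolynomial.aeval b (eqs m) = 0

/-- The coordinates of the point of the affine chart `b_c = 1` of `ℙ^r` with affine coordinates `u`. -/
def affine {r : ℕ} {K : Type} [Field K] (c : Fin (r + 1)) (u : {k : Fin (r + 1) // k ≠ c} → K)
    (k : Fin (r + 1)) : K :=
  if h : k ≠ c then u ⟨k, h⟩ else 1

/-- The base is smooth at its points over `K`: in each affine chart it is given, near each of its points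
over `K`, by polynomial equations whose gradients at the point are linearly independent. -/
def Smooth {r M : ℕ} (K : Type) [NormedField K] (eqs : Fin M → MvPolynomial (Fin (r + 1)) ℤ) : Prop :=
  ∀ (c : Fin (r + 1)) (u : {k : Fin (r + 1) // k ≠ c} → K), OnBase eqs (affine c u) →
    ∃ (t : ℕ) (g : Fin t → MvPolynomial {k : Fin (r + 1) // k ≠ c} ℤ),
      (∀ᶠ u' in 𝓝 u, OnBase eqs (affine c u') ↔ ∀ i, MvPolynomial.aeval u' (g i) = 0) ∧
      LinearIndependent K fun (i : Fin t) (a : {k : Fin (r + 1) // k ≠ c}) =>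
        (MvPolynomial.aeval u (MvPolynomial.pderiv a (g i)) : K)

/-- The point `((b_p)_{p ≤ w}, b')` is in the closure of the set `𝓑` of rational points. -/
def InClosure {r : ℕ} (𝓑 : Set (Fin (r + 1) → ℤ)) (w : ℕ)
    (b : ∀ (p : ℕ) [Fact p.Prime], Fin (r + 1) → ℚ_[p]) (b' : Fin (r + 1) → ℝ) : Prop :=
  ∀ A : ℕ, ∃ c ∈ 𝓑, (∀ (p : ℕ) [Fact p.Prime], p ≤ w → Near (1 / ((A : ℝ) + 1)) (b p) c) ∧
    Near (1 / ((A : ℝ) + 1)) b' c

/-- The closure of `𝓑` in `B(ℝ) × ∏_{p ≤ w} B(ℚ_p)` is open for all `w`: the points of this space at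
distance at most `δ` from a point of the closure are in the closure. -/
def OpenClosure {r M : ℕ} (𝓑 : Set (Fin (r + 1) → ℤ))
    (eqs : Fin M → MvPolynomial (Fin (r + 1)) ℤ) : Prop :=
  ∀ w : ℕ, ∃ δ : ℝ, 0 < δ ∧ ∀ (b d : ∀ (p : ℕ) [Fact p.Prime], Fin (r + 1) → ℚ_[p])
    (b' d' : Fin (r + 1) → ℝ),
    (∀ (p : ℕ) [Fact p.Prime], p ≤ w → ‖b p‖ = 1 ∧ OnBase eqs (d p) ∧ ‖b p - d p‖ ≤ δ) →
    (‖b'‖ = 1 ∧ OnBase eqs d' ∧ ‖b' - d'‖ ≤ δ) → InClosure 𝓑 w b b' → InClosure 𝓑 w d d'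

/-- `((x_p, b_p)_p, (x', b'))` is an adelic point of `X_F` over the closure of `𝓑` (with normalised
coordinates: the maximum norms of the vectors are `1`). -/
def Adelic {n r s M : ℕ} (𝓑 : Set (Fin (r + 1) → ℤ)) (eqs : Fin M → MvPolynomial (Fin (r + 1)) ℤ)
    (F : Fin (r + 1) → Fin s → MvPolynomial (Fin (n + 1)) ℤ)
    (x : ∀ (p : ℕ) [Fact p.Prime], Fin (n + 1) → ℚ_[p])
    (b : ∀ (p : ℕ) [Fact p.Prime], Fin (r + 1) → ℚ_[p])
    (x' : Fin (n + 1) → ℝ) (b' : Fin (r + 1) → ℝ) : Prop :=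
  (∀ (p : ℕ) [Fact p.Prime], ‖x p‖ = 1 ∧ ‖b p‖ = 1 ∧ OnBase eqs (b p) ∧ Zero F (x p) (b p)) ∧
  ‖x'‖ = 1 ∧ ‖b'‖ = 1 ∧ OnBase eqs b' ∧ Zero F x' b' ∧ ∀ w, InClosure 𝓑 w b b'

/-- `X_F` has an adelic point over the closure of `𝓑`. -/
def ElsOver {n r s M : ℕ} (𝓑 : Set (Fin (r + 1) → ℤ)) (eqs : Fin M → MvPolynomial (Fin (r + 1)) ℤ)
    (F : Fin (r + 1) → Fin s → MvPolynomial (Fin (n + 1)) ℤ) : Prop :=
  ∃ (x : ∀ (p : ℕ) [Fact p.Prime], Fin (n + 1) → ℚ_[p])
    (b : ∀ (p : ℕ) [Fact p.Prime], Fin (r + 1) → ℚ_[p])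
    (x' : Fin (n + 1) → ℝ) (b' : Fin (r + 1) → ℝ), Adelic 𝓑 eqs F x b x' b'

/-- A primitive integral vector: it represents a rational point of a projective space. -/
def Primitive {α : Type} (y : α → ℤ) : Prop := ∀ g : ℤ, (∀ i, g ∣ y i) → IsUnit g

/-- `(z, c)` is a rational point of `X_F` over `𝓑`. -/
def PointOver {n r s : ℕ} (𝓑 : Set (Fin (r + 1) → ℤ))
    (F : Fin (r + 1) → Fin s → MvPolynomial (Fin (n + 1)) ℤ) (z : Fin (n + 1) → ℤ)
    (c : Fin (r + 1) → ℤ) : Prop :=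
  c ∈ 𝓑 ∧ Primitive z ∧ Zero F (fun i => (z i : ℚ)) (fun i => (c i : ℚ))

/-- All the adelic points of `X_F` over the closure of `𝓑` are approximated by rational points over `𝓑`
with precision `1 / m`, at the primes `p ≤ m` and at the real place. -/
def ApprOver {n r s M : ℕ} (m : ℕ) (𝓑 : Set (Fin (r + 1) → ℤ))
    (eqs : Fin M → MvPolynomial (Fin (r + 1)) ℤ)
    (F : Fin (r + 1) → Fin s → MvPolynomial (Fin (n + 1)) ℤ) : Prop :=
  ∀ (x : ∀ (p : ℕ) [Fact p.Prime], Fin (n + 1) → ℚ_[p])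
    (b : ∀ (p : ℕ) [Fact p.Prime], Fin (r + 1) → ℚ_[p])
    (x' : Fin (n + 1) → ℝ) (b' : Fin (r + 1) → ℝ), Adelic 𝓑 eqs F x b x' b' →
    ∃ (z : Fin (n + 1) → ℤ) (c : Fin (r + 1) → ℤ), PointOver 𝓑 F z c ∧
      (∀ (p : ℕ) [Fact p.Prime], p ≤ m → Near (1 / (m : ℝ)) (x p) z ∧ Near (1 / (m : ℝ)) (b p) c) ∧
      Near (1 / (m : ℝ)) x' z ∧ Near (1 / (m : ℝ)) b' c

/-! ### Proofs -/

section

variable {κ : Type} [Fintype κ] {n s : ℕ} {e : Fin s → ℕ}

open Pool.Agent.V7H73.RF

theorem mem_iff {H : ℕ} {F : κ → Fin s → MvPolynomial (Fin (n + 1)) ℤ} :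
    F ∈ Families κ n (fun j => e j + 2) H ↔ F ∈ famZ (Fin (n + 1)) κ e (H : ℝ) := by
  rw [mem_famZ]
  exact forall_congr' fun k => forall_congr' fun j => (Pool.Agent.Y716.Q.isF_iff (F k j)).symm

theorem ncard_families (H : ℕ) :
    (Families κ n (fun j => e j + 2) H).ncard = (famZ (Fin (n + 1)) κ e (H : ℝ)).card := by
  rw [← Set.ncard_coe_finset]
  congr 1
  ext F
  rw [mem_iff, Finset.mem_coe]

theorem ncard_filter (H : ℕ) (P : (κ → Fin s → MvPolynomial (Fin (n + 1)) ℤ) → Prop)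
    {_hP : DecidablePred P} :
    ({F | F ∈ Families κ n (fun j => e j + 2) H ∧ P F} : Set _).ncard =
      ((famZ (Fin (n + 1)) κ e (H : ℝ)).filter P).card := by
  rw [← Set.ncard_coe_finset]
  congr 1
  ext F
  rw [Finset.mem_coe, Finset.mem_filter, ← mem_iff]
  rfl

theorem zero_iff {F : κ → Fin s → MvPolynomial (Fin (n + 1)) ℤ} (z : Fin (n + 1) → ℤ) (c : κ → ℤ) :
    Zero F (fun i => (z i : ℚ)) (fun i => (c i : ℚ)) ↔
      ∀ j, ∑ k, c k * MvPolynomial.eval z (F k j) = 0 := by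
  refine forall_congr' fun j => ?_
  have h : ∑ k, (c k : ℚ) * MvPolynomial.aeval (fun i => (z i : ℚ)) (F k j) =
      ((∑ k, c k * MvPolynomial.eval z (F k j) : ℤ) : ℚ) := by
    rw [Int.cast_sum]
    refine Finset.sum_congr rfl fun k _ => ?_
    rw [Pool.Agent.Y716.Q.aeval_cast, Int.cast_mul]
  rw [h]
  exact Int.cast_eq_zero

theorem onBase_iff {r M : ℕ} {eqs : Fin M → MvPolynomial (Fin (r + 1)) ℤ} (c : Fin (r + 1) → ℤ) :
    OnBase eqs (fun i => (c i : ℚ)) ↔ ∀ m, MvPolynomial.eval c (eqs m) = 0 := by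
  refine forall_congr' fun m => ?_
  rw [Pool.Agent.Y716.Q.aeval_cast]
  exact Int.cast_eq_zero

variable {r M : ℕ} {𝓑 : Set (Fin (r + 1) → ℤ)} {eqs : Fin M → MvPolynomial (Fin (r + 1)) ℤ}
  {F : Fin (r + 1) → Fin s → MvPolynomial (Fin (n + 1)) ℤ}

theorem pointOver_iff : (∃ z c, PointOver 𝓑 F z c) ↔ HasQV 𝓑 F := by
  constructor
  · rintro ⟨z, c, hc, hz, h⟩
    exact ⟨c, hc, z, hz, (zero_iff z c).mp h⟩
  · rintro ⟨c, hc, z, hz, h⟩
    exact ⟨z, c, hc, hz, (zero_iff z c).mpr h⟩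

theorem elsOver_iff : ElsOver 𝓑 eqs F ↔ ElsV 𝓑 eqs F := by
  constructor
  · rintro ⟨x, b, x', b', h1, h2, h3, h4, h5, h6⟩
    exact ⟨x, b, x', b', ⟨h1, h2, h3, h4, h5⟩, h6⟩
  · rintro ⟨x, b, x', b', ⟨h1, h2, h3, h4, h5⟩, h6⟩
    exact ⟨x, b, x', b', h1, h2, h3, h4, h5, h6⟩

theorem apprOver_of {m : ℕ} (h : GoodA m 𝓑 eqs F) : ApprOver m 𝓑 eqs F := by
  rintro x b x' b' ⟨h1, h2, h3, h4, h5, h6⟩
  obtain ⟨c, hc, z, hz, g1, g2, g3, g4⟩ := h x b x' b' ⟨h1, h2, h3, h4, h5⟩ h6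
  exact ⟨z, c, ⟨hc, hz, (zero_iff z c).mpr g1⟩, g2, g3, g4⟩

theorem apprOver_iff {m : ℕ} : ApprOver m 𝓑 eqs F ↔ GoodA m 𝓑 eqs F := by
  refine ⟨fun h x b x' b' hA hI => ?_, apprOver_of⟩
  obtain ⟨z, c, ⟨hc, hz, g1⟩, g2, g3, g4⟩ := h x b x' b' ⟨hA.1, hA.2.1, hA.2.2.1, hA.2.2.2.1,
    hA.2.2.2.2, hI⟩
  exact ⟨c, hc, z, hz, (zero_iff z c).mp g1, g2, g3, g4⟩

end

/-- Let `n ≥ 3`, `d_j ≥ 2`, `∑ d_j ≤ n`.

1. For all `r i ≥ 0`, `E i ≥ 1`: a positive proportion of the complete intersections of multidegree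
`(d_j; E 0, E 1, …)` in `ℙⁿ × ℙ^(r 0) × ℙ^(r 1) × …` has a rational point, and 100% of those which are
everywhere locally soluble satisfy weak approximation with precision `1 / m(H)`, where `m(H) → ∞`.

2. Let `B ⊆ ℙ^r` be given by homogeneous integral equations `eqs` and smooth at its real and `p`-adic
points, and let `𝓑` be a nonempty set of rational points of `B` whose closure is open. A positive proportion
of the `X_F` has a rational point over `𝓑`, and for 100% of the `X_F` which have an adelic point over the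
closure of `𝓑` all these adelic points are approximated by rational points over `𝓑` with precision
`1 / m(H)`, where `m(H) → ∞`. -/
theorem result (n s : ℕ) (d : Fin s → ℕ) (hn : 3 ≤ n) (hs : 1 ≤ s) (hd : ∀ j, 2 ≤ d j)
    (hdn : ∑ j, d j ≤ n) :
    (∀ (a : ℕ) (r E : Fin a → ℕ), (∀ i, 1 ≤ E i) →
      (∃ c : ℝ, 0 < c ∧ ∀ᶠ H : ℕ in atTop, c * ((Families (Expo r E) n d H).ncard : ℝ) ≤
        (({F | F ∈ Families (Expo r E) n d H ∧ HasPoint ℚ F} : Set _).ncard : ℝ)) ∧
      ∃ m : ℕ → ℕ, Tendsto m atTop atTop ∧ Tendsto (fun H : ℕ =>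
        (({F | F ∈ Families (Expo r E) n d H ∧ Els F ∧ WeakAppr (m H) F} : Set _).ncard : ℝ) /
        (({F | F ∈ Families (Expo r E) n d H ∧ Els F} : Set _).ncard : ℝ)) atTop (𝓝 1)) ∧
    (∀ (r M : ℕ) (eqs : Fin M → MvPolynomial (Fin (r + 1)) ℤ) (𝓑 : Set (Fin (r + 1) → ℤ)),
      (∀ m, ∃ D, (eqs m).IsHomogeneous D) → Smooth ℝ eqs →
      (∀ (p : ℕ) [Fact p.Prime], Smooth ℚ_[p] eqs) → 𝓑.Nonempty →
      (∀ c ∈ 𝓑, Primitive c ∧ OnBase eqs (fun i => (c i : ℚ))) → OpenClosure 𝓑 eqs →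
      (∃ c : ℝ, 0 < c ∧ ∀ᶠ H : ℕ in atTop, c * ((Families (Fin (r + 1)) n d H).ncard : ℝ) ≤
        (({F | F ∈ Families (Fin (r + 1)) n d H ∧ ∃ z c, PointOver 𝓑 F z c} : Set _).ncard : ℝ)) ∧
      ∃ m : ℕ → ℕ, Tendsto m atTop atTop ∧ Tendsto (fun H : ℕ =>
        (({F | F ∈ Families (Fin (r + 1)) n d H ∧ ElsOver 𝓑 eqs F ∧
          ApprOver (m H) 𝓑 eqs F} : Set _).ncard : ℝ) /
        (({F | F ∈ Families (Fin (r + 1)) n d H ∧ ElsOver 𝓑 eqs F} : Set _).ncard : ℝ))
        atTop (𝓝 1)) := by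
  classical
  obtain ⟨e, he⟩ : ∃ e : Fin s → ℕ, ∀ j, e j + 2 = d j :=
    ⟨fun j => d j - 2, fun j => by have := hd j; dsimp only; omega⟩
  have hd' : d = fun j => e j + 2 := funext fun j => (he j).symm
  subst hd'
  have hsn : s < n + 1 := by
    have h3 : ∑ _j : Fin s, 2 ≤ ∑ j, (e j + 2) := Finset.sum_le_sum fun j _ => by omega
    have h4 : ∑ j, (e j + 2) ≤ n := hdn
    rw [Finset.sum_const, Finset.card_univ, Fintype.card_fin, smul_eq_mul] at h3
    omega
  obtain ⟨h1, h2⟩ := Pool.Agent.Y716.D.dims hs hn hdn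
  have hcl := Pool.Agent.Y716.D.class_all (Fin (n + 1)) hs h1 e h2
  have hmin := Pool.Agent.Z864.C.minor (Fin (n + 1)) s
  have hpos := Pool.Agent.Y716.D.pos_all (Fin (n + 1)) hs h1 e h2
  constructor
  · intro a r E hE
    obtain ⟨⟨c, hc, h3⟩, m, hm, h4⟩ := Pool.Agent.V7H73.RF.prod_main (r := r) (E := E) hs e hcl hmin
      hpos (by omega) hE
    refine ⟨⟨c, hc, ?_⟩, m, hm, ?_⟩
    · filter_upwards [h3] with H hH
      rw [← ncard_families, ← ncard_filter] at hH
      exact hH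
    · refine h4.congr fun H => ?_
      rw [← ncard_filter, ← ncard_filter]
      rfl
  · intro r M eqs 𝓑 heq hsr hsp hne h𝓑 hop
    obtain ⟨⟨c, hc, h3⟩, m, hm, h4⟩ := Pool.Agent.V7H73.RF.smooth_main hs e hcl hmin hpos hsn 𝓑
      (fun b hb => (h𝓑 b hb).1) hne eqs heq (fun b hb => (onBase_iff b).mp (h𝓑 b hb).2) hsr hsp hop
    refine ⟨⟨c, hc, ?_⟩, m, hm, ?_⟩
    · filter_upwards [h3] with H hH
      rw [← ncard_families, ← ncard_filter] at hH
      simp only [pointOver_iff]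
      exact hH
    · refine h4.congr fun H => ?_
      rw [← ncard_filter, ← ncard_filter]
      simp only [elsOver_iff, apprOver_iff]

end Pool.Agent.Results.MP_e426f4_ag.RandomFanoFibrationsH73
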