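import Pool.Agent.V7H6.NB.RealD
import Pool.Agent.V7H6.NB.Pure

/-!
# MP_e426f4_ag: weak approximation for 100% of the varieties
# `N_{Kᵢ/ℚ}(zᵢ) = cᵢ ∏_j (f_j(t) + k_j) ^ {e_ij}` over non-abelian fields `Kᵢ`

Let `f_1, …, f_s` be any nonconstant integral polynomials in one variable, let the `cᵢ`, `i < r`, be nonzero
integers, `e_ij ≥ 0` any exponents, and let the `Kᵢ` be number fields with class numbers prime to their
degrees. For `k` in `ℤ^s` let `V_k` be the variety

`N_{Kᵢ/ℚ}(zᵢ) = cᵢ ∏_j (f_j(t) + k_j) ^ {e_ij}`, `i < r`, with all the `f_j(t) + k_j` different from `0`.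

It is smooth and geometrically rational, so that its smooth projective models are geometrically rationally
connected; they are fibred over the line in compactifications of torsors under products of norm one tori, with
arbitrarily many degenerate fibres over points of arbitrary degrees. Only the constant terms of the
polynomials vary. The fields need not be abelian.

Suppose that the `Kᵢ` and the exponents satisfy the condition `GaloisCondition` below, which involves only
the Galois group of a number field `L` which contains the `Kᵢ` and a root of unity `ζ`, and its action on the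
embeddings of the `Kᵢ`; and that, for every `i`, `-1` is a norm from `Kᵢ` or no negative number is a norm.
Let `T` be any finite set of primes, `N` and `B` be fixed. For all `k` with `|k_j| ≤ B X ^ deg f_j` except for a
proportion of `o(1)`, `X → ∞`, the following holds.

(1) If `V_k` has points over `ℝ` and all `ℚ_p`, there is a rational point, and the
rational points approximate all families of points (not too large and not too close to the degenerate fibres)
over the `ℚ_p`, `p` in `T`: in the coordinate `t`, and in `zᵢ` for all `i` for which `Kᵢ` is of prime degree or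
cyclic. For `T = ∅` this is the Hasse principle.

(2) If `V_k` has points over all `ℚ_p`, all families of points of `V_k` over the `ℚ_p`, `p` in `T`, and over `ℝ` (not too large and not too close to the degenerate fibres) can be approximated
by rational points of `V_k`: at the primes of `T` as in (1), and in the coordinate `t` at the real place,
where sizes and distances are measured at the natural scale `t ~ X`, together with the signs of all the
`f_j(t) + k_j`.

(3) The condition holds if every `Kᵢ` is of odd prime degree (first kind, `i` in `A`) or is a subfield, of odd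
degree, of a cyclotomic field, while only one `e_ij` is different from `0` and this one is prime to the degree
(second kind); and if no product of the discriminants of an odd number of fields of the first kind is a
square. In particular the condition holds for all exponents for any single field of odd prime degree whose
discriminant is not a square, for example a non-cyclic cubic field.

(4) The condition on the discriminants holds for all families of pure fields `Kᵢ = ℚ(aᵢ ^ (1 / ℓᵢ))` of odd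
prime degrees `ℓᵢ`.

Proof. The second moment over `k` of `R479.NF` gives for almost all `k` a rational `t` near given points for
which the `|f_j(t) + k_j|` are prime numbers `q_j` up to the primes of `T`. As the class numbers are prime to
the degrees, norms of ideals are norms of elements up to sign, and so the part of `cᵢ ∏_j (f_j(t) + k_j) ^ {e_ij}`
at `T` is a norm from `Kᵢ`, and the residue class of `∏_j q_j ^ {e_ij}` modulo the conductor is that of the norm
of an ideal. For non-abelian `Kᵢ` the residue class of `q_j` does not determine its decomposition in `Kᵢ`. For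
the automorphisms `g_j` which the Galois condition provides choose by Chebotarev's theorem finitely many primes
`l` with Frobenius element `g_j` such that for almost all `k` the value `f_j(0) + k_j` is exactly divisible by
one of them, `l_j`, and the other values at `0` are not (`NB/CtS`). With `t ≡ 0` at the `l_j` the second moment
gives another `t`, for which `f_j(t) + k_j` is `l_j` times a prime number `q_j'`, up to the same factor at `T`,
and `l_j q_j' ≡ q_j` modulo the conductor. By the condition the Frobenius elements at `l_j` and `q_j'` have, for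
every prime divisor of the degree of `Kᵢ`, an orbit of length prime to it on the embeddings of `Kᵢ`, so that
`l_j` and `q_j'` are norms (`NB/Rel`, `NB/MainS`). At the primes of bad reduction the local points have bounded
coordinates for all `k` outside a set of small density (`NB/DensM`, `NB/DensC`, `NB/AnyM`), and real points can
be moved to the scale `X`: the set of the `k` for which there is a real `t` where the `f_j(t) + k_j` have given
signs is monotone, and its boundary is small (`NB/RealD`). Weak approximation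
for the norm one torus of a field `K` of prime degree `ℓ` (`NB/Tor1` to `NB/Tor4`): the Galois group of the
normal closure contains an element `σ` of order `ℓ` which permutes the embeddings cyclically, and the order `h`
of the stabilizer of one embedding is prime to `ℓ`; for an element `x` of norm one in `K ⊗ ℚ_p`, `x ^ ℓ` is in
the closure of the rational elements of norm one, as `y ^ ℓ / N(y)` for rational `y` near `x`, and so is `x ^ h`,
as the norm from the normal closure to `K` of `y / σ(y)` with `y` near the solution of `x = y / σ(y)` of theorem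
90 of Hilbert.
-/

set_option autoImplicit false

namespace Pool.Agent.Results.MP_e426f4_ag.SimultaneousShiftsH6

open Finset NumberField Module TensorProduct Polynomial Filter Topology

instance (p : Nat.Primes) : Fact (p : ℕ).Prime := ⟨p.2⟩

/-- The class number of the field `K` is prime to its degree, and `-1` is a norm or no negative number is
a norm. -/
def Admissible (K : Type) [Field K] [NumberField K] : Prop :=
  (classNumber K).Coprime (finrank ℚ K) ∧
    ((∃ x : K, Algebra.norm ℚ x = -1) ∨ ∀ x : K, 0 ≤ Algebra.norm ℚ x)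

/-- For every prime divisor `ℓ` of the degree of `K` there are an embedding `ψ` of `K` into `L` and an exponent
`j` not divisible by `ℓ` such that `σ ^ j ∘ ψ = ψ`: the automorphism `σ` of `L` has an orbit on the set of the
embeddings whose length is not divisible by `ℓ`. -/
def Good {L : Type} [Field L] [NumberField L] (K : Type) [Field K] [NumberField K] (σ : Gal(L/ℚ)) : Prop :=
  ∀ ℓ : ℕ, ℓ.Prime → ℓ ∣ finrank ℚ K →
    ∃ (j : ℕ) (ψ : K →ₐ[ℚ] L), ¬ ℓ ∣ j ∧ ∀ x : K, (σ ^ j) (ψ x) = ψ x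

variable {r s : ℕ} (K : Fin r → Type) [∀ i, Field (K i)] [∀ i, NumberField (K i)]

/-- There are a Galois number field `L`, a primitive `m`-th root of unity `ζ` in `L` and embeddings `ιᵢ` of the
`Kᵢ` into `L` such that: if the automorphisms `σ_j` of `L` act on `ζ` as the `a_j`-th powers and if, for every
`i`, the power with the exponent `∏_j a_j ^ {e_ij}` of `ζ` is the image of `ζ` under an automorphism of `L`
fixing the elements of `ιᵢ(Kᵢ)`, then, for every `j`, there is an automorphism `g` which is good for the `Kᵢ`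
with `e_ij ≠ 0`, such that all `h` with `g h ζ = σ_j ζ` are good for these `Kᵢ`. -/
def GaloisCondition (E : Fin r → Fin s → ℕ) : Prop :=
  ∃ (L : Type) (_ : Field L) (_ : NumberField L) (_ : IsGalois ℚ L) (m : ℕ) (ζ : L)
    (ι : (i : Fin r) → K i →ₐ[ℚ] L), m ≠ 0 ∧ IsPrimitiveRoot ζ m ∧
    ∀ (σ : Fin s → Gal(L/ℚ)) (a : Fin s → ℕ), (∀ j, σ j ζ = ζ ^ a j) →
      (∀ i, ∃ τ : Gal(L/ℚ), (∀ x, τ (ι i x) = ι i x) ∧ τ ζ = ζ ^ (∏ j, a j ^ E i j)) →
      ∀ j, ∃ g : Gal(L/ℚ), (∀ i, E i j ≠ 0 → Good (K i) g) ∧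
        ∀ h : Gal(L/ℚ), g (h ζ) = σ j ζ → ∀ i, E i j ≠ 0 → Good (K i) h

/-- All `k` in `ℤ^s` with `|k_j| ≤ B X ^ deg f_j`. -/
noncomputable def box (f : Fin s → ℤ[X]) (B X : ℕ) : Finset (Fin s → ℤ) :=
  Fintype.piFinset fun j => Icc (-((B * X ^ (f j).natDegree : ℕ) : ℤ)) ((B * X ^ (f j).natDegree : ℕ) : ℤ)

/-- The point `(t, z)` with coordinates in the field `F` lies on
`V_k : N_{Kᵢ/ℚ}(zᵢ) = cᵢ ∏_j (f_j(t) + k_j) ^ {e_ij}`, all `f_j(t) + k_j ≠ 0`. The coordinates `zᵢ` form an
element of `F ⊗ Kᵢ`. -/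
def OnV (f : Fin s → ℤ[X]) (E : Fin r → Fin s → ℕ) (c : Fin r → ℤ) (k : Fin s → ℤ) {F : Type} [Field F]
    [Algebra ℚ F] (t : F) (z : (i : Fin r) → F ⊗[ℚ] (K i)) : Prop :=
  (∀ j, aeval t (f j) + (k j : F) ≠ 0) ∧
    ∀ i, Algebra.norm F (z i) = (c i : F) * ∏ j, (aeval t (f j) + (k j : F)) ^ E i j

/-- `V_k` has a real point. -/
def RealSoluble (f : Fin s → ℤ[X]) (E : Fin r → Fin s → ℕ) (c : Fin r → ℤ) (k : Fin s → ℤ) : Prop :=
  ∃ (t : ℝ) (z : (i : Fin r) → ℝ ⊗[ℚ] (K i)), OnV K f E c k t z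

/-- `V_k` has points over all `ℚ_p`. -/
def LocallySoluble (f : Fin s → ℤ[X]) (E : Fin r → Fin s → ℕ) (c : Fin r → ℤ) (k : Fin s → ℤ) : Prop :=
  ∀ p : Nat.Primes, ∃ (t : ℚ_[(p : ℕ)]) (z : (i : Fin r) → ℚ_[(p : ℕ)] ⊗[ℚ] (K i)), OnV K f E c k t z

/-- The coordinates of an element of `F ⊗ K`, with respect to an integral basis of `K`. -/
noncomputable def coord (K : Type) [Field K] [NumberField K] {F : Type} [Field F] [Algebra ℚ F] (z : F ⊗[ℚ] K)
    (j : Free.ChooseBasisIndex ℤ (𝓞 K)) : F :=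
  (Algebra.TensorProduct.basis F (integralBasis K)).repr z j

/-- Given points: for all `p` in `T` the point `(t_p, z_p)` lies on `V_k`, its coordinates have absolute
value at most `p ^ N` and `|f_j(t_p) + k_j| ≥ p ^ (-N)` for all `j`. -/
def Given (f : Fin s → ℤ[X]) (E : Fin r → Fin s → ℕ) (c : Fin r → ℤ) (T : Finset Nat.Primes) (N : ℕ)
    (k : Fin s → ℤ) (t : (p : Nat.Primes) → ℚ_[(p : ℕ)])
    (z : (p : Nat.Primes) → (i : Fin r) → ℚ_[(p : ℕ)] ⊗[ℚ] (K i)) : Prop :=
  ∀ p ∈ T, OnV K f E c k (t p) (z p) ∧ ‖t p‖ ≤ ((p : ℕ) : ℝ) ^ N ∧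
    (∀ i j, ‖coord (K i) (z p i) j‖ ≤ ((p : ℕ) : ℝ) ^ N) ∧
    ∀ j, (((p : ℕ) : ℝ) ^ N)⁻¹ ≤ ‖aeval (t p) (f j) + (k j : ℚ_[(p : ℕ)])‖

/-- For all `p` in `T` the number `q` is within `p ^ (-N)` of `t_p`, and the coordinates of `yᵢ` are within
`p ^ (-N)` of those of `z_{p,i}` for all `i` for which `Kᵢ` is of prime degree or cyclic over `ℚ`. -/
def Near (T : Finset Nat.Primes) (N : ℕ) (t : (p : Nat.Primes) → ℚ_[(p : ℕ)])
    (z : (p : Nat.Primes) → (i : Fin r) → ℚ_[(p : ℕ)] ⊗[ℚ] (K i)) (q : ℚ) (y : (i : Fin r) → ℚ ⊗[ℚ] (K i)) :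
    Prop :=
  ∀ p ∈ T, ‖(q : ℚ_[(p : ℕ)]) - t p‖ ≤ (((p : ℕ) : ℝ) ^ N)⁻¹ ∧
    ∀ i, ((finrank ℚ (K i)).Prime ∨ (IsGalois ℚ (K i) ∧ IsCyclic (K i ≃ₐ[ℚ] K i))) → ∀ j,
      ‖((coord (K i) (y i) j : ℚ) : ℚ_[(p : ℕ)]) - coord (K i) (z p i) j‖ ≤ (((p : ℕ) : ℝ) ^ N)⁻¹

/-- Weak approximation of level `N` at the primes of `T`, and of level `B` at the real place: for all given
points at `T` and all real points `(tr, zr)` with `|tr| ≤ B X` and `|f_j(tr) + k_j| ≥ X ^ deg f_j / B` there is
a rational point `(q, y)` near the given points, with `|q - tr| ≤ X / B`, such that the `f_j(q) + k_j` have the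
signs of the `f_j(tr) + k_j`. -/
def WeakApproximation (f : Fin s → ℤ[X]) (E : Fin r → Fin s → ℕ) (c : Fin r → ℤ) (T : Finset Nat.Primes)
    (N B X : ℕ) (k : Fin s → ℤ) : Prop :=
  ∀ (t : (p : Nat.Primes) → ℚ_[(p : ℕ)]) (z : (p : Nat.Primes) → (i : Fin r) → ℚ_[(p : ℕ)] ⊗[ℚ] (K i))
    (tr : ℝ) (zr : (i : Fin r) → ℝ ⊗[ℚ] (K i)), Given K f E c T N k t z → OnV K f E c k tr zr →
    |tr| ≤ B * X → (∀ j, (X : ℝ) ^ (f j).natDegree ≤ B * |aeval tr (f j) + (k j : ℝ)|) →
    ∃ (q : ℚ) (y : (i : Fin r) → ℚ ⊗[ℚ] (K i)), OnV K f E c k q y ∧ Near K T N t z q y ∧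
      B * |(q : ℝ) - tr| ≤ X ∧ ∀ j, 0 < (aeval (q : ℝ) (f j) + (k j : ℝ)) * (aeval tr (f j) + (k j : ℝ))

/-- All given points at `T` are approximated by rational points. For `T = ∅` this says that `V_k` has a
rational point. -/
def Approximation (f : Fin s → ℤ[X]) (E : Fin r → Fin s → ℕ) (c : Fin r → ℤ) (T : Finset Nat.Primes)
    (N : ℕ) (k : Fin s → ℤ) : Prop :=
  ∀ (t : (p : Nat.Primes) → ℚ_[(p : ℕ)]) (z : (p : Nat.Primes) → (i : Fin r) → ℚ_[(p : ℕ)] ⊗[ℚ] (K i)),
    Given K f E c T N k t z →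
    ∃ (q : ℚ) (y : (i : Fin r) → ℚ ⊗[ℚ] (K i)), OnV K f E c k q y ∧ Near K T N t z q y

/-- `K` is a subfield of a cyclotomic field. -/
def InCyclotomic (K : Type) [Field K] [NumberField K] : Prop :=
  ∃ (n : ℕ) (C : Type) (_ : Field C) (_ : NumberField C), n ≠ 0 ∧ IsCyclotomicExtension {n} ℚ C ∧
    Nonempty (K →ₐ[ℚ] C)

/-- The field `K` is of odd prime degree `ℓ` and contains an irrational number `x` such that `x ^ ℓ` is
rational. -/
def Pure (K : Type) [Field K] [NumberField K] : Prop :=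
  ((finrank ℚ K).Prime ∧ finrank ℚ K ≠ 2) ∧
    ∃ x : K, x ∉ Set.range (algebraMap ℚ K) ∧ ∃ a : ℚ, x ^ finrank ℚ K = algebraMap ℚ K a

variable {K} {f : Fin s → ℤ[X]} {E : Fin r → Fin s → ℕ} {c : Fin r → ℤ}

/-- from the library statement -/
lemma near_of (hc : ∀ i, c i ≠ 0) {T : Finset Nat.Primes} {N B X M : ℕ}
    (hM : M = (2 * (∑ j, (f j).natDegree) + 3) * (2 * N + 2 * ∑ i, finrank ℚ (K i)) + 3) {k : Fin s → ℤ}
    {t : (p : Nat.Primes) → ℚ_[(p : ℕ)]} {z : (p : Nat.Primes) → (i : Fin r) → ℚ_[(p : ℕ)] ⊗[ℚ] (K i)} {tr : ℝ}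
    (hg : Given K f E c T N k t z) (hG : Pool.Agent.V7H6.NB.GlM K f E c T M B X k t tr) :
    ∃ (q : ℚ) (y : (i : Fin r) → ℚ ⊗[ℚ] (K i)), OnV K f E c k q y ∧ Near K T N t z q y ∧
      B * |(q : ℝ) - tr| ≤ X ∧ ∀ j, 0 < (aeval (q : ℝ) (f j) + (k j : ℝ)) * (aeval tr (f j) + (k j : ℝ)) := by
  obtain ⟨q, y, h1, h2, h3, h4⟩ := Pool.Agent.V7H6.NB.szM K f E c hc T N B X M hM k t z tr (by
    intro p hp
    obtain ⟨h1, h2, h3, h4⟩ := hg p hp
    exact ⟨h2, h4, fun i => ⟨h1.2 i, fun j => h3 i j⟩⟩) hG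
  refine ⟨q, fun i => (1 : ℚ) ⊗ₜ[ℚ] y i, ⟨fun j h0 => ?_, fun i => ?_⟩, fun p hp =>
    ⟨(h4 p hp).1, fun i hi j => ?_⟩, h2, h1⟩
  · have h5 := h1 j
    have e : Pool.Agent.Y714.RC.PP f k j (q : ℝ) = ((aeval q (f j) + (k j : ℚ) : ℚ) : ℝ) := by
      rw [← Pool.Agent.V7H6.NB.cast_PPr]
      rfl
    rw [e, h0, Rat.cast_zero, zero_mul] at h5
    exact lt_irrefl _ h5
  · rw [Pool.Agent.R479.NF.norm_one_tmul_rat, h3 i]
    rfl
  · have hW : Pool.Agent.V7H6.NB.WA (K i) := by
      rcases hi with hi | ⟨hi1, hi2⟩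
      · exact Pool.Agent.V7H6.NB.wa_prime hi
      · obtain ⟨σ, hσ⟩ := hi2.exists_generator
        exact Pool.Agent.V7H6.NB.wa_cyc (σ := σ) hσ
    have h5 := (h4 p hp).2 i hW j
    have e : ((coord (K i) ((1 : ℚ) ⊗ₜ[ℚ] y i) j : ℚ) : ℚ_[(p : ℕ)]) =
        Pool.Agent.R479.NF.cd (p : ℕ) ((1 : ℚ_[(p : ℕ)]) ⊗ₜ[ℚ] (y i) : Pool.Agent.R479.NF.Ap (K i) (p : ℕ)) j := by
      unfold coord Pool.Agent.R479.NF.cd
      rw [Basis.equivFun_apply, Algebra.TensorProduct.basis_repr_tmul, Algebra.TensorProduct.basis_repr_tmul]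
      simp
    rw [e]
    exact h5

lemma lcM_of {T : Finset Nat.Primes} {N M : ℕ} (hNM : N ≤ M) {k : Fin s → ℤ} {t : (p : Nat.Primes) → ℚ_[(p : ℕ)]}
    {z : (p : Nat.Primes) → (i : Fin r) → ℚ_[(p : ℕ)] ⊗[ℚ] (K i)} (hg : Given K f E c T N k t z) :
    Pool.Agent.V7H6.NB.LcM K f E c T M k t := by
  intro p hp
  have h1p : (1 : ℝ) < ((p : ℕ) : ℝ) := by exact_mod_cast p.2.one_lt
  have h0p : (0 : ℝ) < ((p : ℕ) : ℝ) := by linarith
  obtain ⟨h1, h2, -, h4⟩ := hg p hp
  refine ⟨h2.trans (pow_le_pow_right₀ h1p.le hNM), fun j => ?_, fun i => ⟨z p i, h1.2 i⟩⟩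
  exact (inv_anti₀ (by positivity) (pow_le_pow_right₀ h1p.le hNM)).trans (h4 j)

/-- small exceptional sets -/
lemma tends_of {f : Fin s → ℤ[X]} {B : ℕ} (hB : 1 ≤ B) (P : ℕ → (Fin s → ℤ) → Prop) [∀ X k, Decidable (P X k)]
    (hmain : ∀ ε : ℝ, 0 < ε → ∃ X0 : ℕ, ∀ X : ℕ, X0 ≤ X → ∃ Bad : Finset (Fin s → ℤ),
      (#Bad : ℝ) ≤ ε * ∏ j, (X : ℝ) ^ (f j).natDegree ∧
      ∀ k : Fin s → ℤ, (∀ j, |k j| ≤ ((B * X ^ (f j).natDegree : ℕ) : ℤ)) → k ∉ Bad → ¬ P X k) :
    Tendsto (fun X : ℕ => (#{k ∈ box f B X | P X k} : ℝ) / #(box f B X)) atTop (𝓝 0) := by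
  rw [Metric.tendsto_atTop]
  intro ε hε
  obtain ⟨X0, h⟩ := hmain (ε / 2) (by linarith)
  refine ⟨max X0 1, fun X hX => ?_⟩
  obtain ⟨Bad, hB1, hB2⟩ := h X ((le_max_left _ _).trans hX)
  have hX1 : 1 ≤ X := (le_max_right _ _).trans hX
  have hbox : (∏ j, (X : ℝ) ^ (f j).natDegree) ≤ #(box f B X) := Pool.Agent.R479.NF.box_card f B X hB
  have hPr : (0 : ℝ) < ∏ j, (X : ℝ) ^ (f j).natDegree := prod_pos fun j _ => by
    have : (0 : ℝ) < X := by exact_mod_cast hX1
    positivity
  have hbox0 : (0 : ℝ) < #(box f B X) := lt_of_lt_of_le hPr hbox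
  have hsub : {k ∈ box f B X | P X k} ⊆ Bad := by
    intro k hk
    rw [mem_filter] at hk
    obtain ⟨hk1, hk2⟩ := hk
    by_contra hkB
    refine hB2 k (fun j => ?_) hkB hk2
    unfold box at hk1
    rw [Fintype.mem_piFinset] at hk1
    exact abs_le.2 (mem_Icc.1 (hk1 j))
  have h2 : (#{k ∈ box f B X | P X k} : ℝ) ≤ #Bad := by
    exact_mod_cast card_le_card hsub
  rw [dist_zero_right, Real.norm_of_nonneg (div_nonneg (Nat.cast_nonneg _) hbox0.le), div_lt_iff₀ hbox0]
  calc (#{k ∈ box f B X | P X k} : ℝ) ≤ ε / 2 * ∏ j, (X : ℝ) ^ (f j).natDegree := h2.trans hB1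
    _ ≤ ε / 2 * #(box f B X) := mul_le_mul_of_nonneg_left hbox (by linarith)
    _ < ε * #(box f B X) := mul_lt_mul_of_pos_right (by linarith) hbox0

lemma sign_of {c : ℤ} {e : Fin s → ℕ} {k : Fin s → ℤ} {tr t0 : ℝ}
    (h : ∀ j, 0 < Pool.Agent.Y714.RC.PP f k j tr * Pool.Agent.Y714.RC.PP f k j t0)
    (h0 : 0 < (c : ℝ) * ∏ j, (aeval t0 (f j) + (k j : ℝ)) ^ e j) :
    0 < (c : ℝ) * ∏ j, Pool.Agent.Y714.RC.PP f k j tr ^ e j := by
  have h1 : 0 < (∏ j, Pool.Agent.Y714.RC.PP f k j tr ^ e j) * ∏ j, (aeval t0 (f j) + (k j : ℝ)) ^ e j := by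
    rw [← prod_mul_distrib]
    apply prod_pos
    intro j _
    rw [← mul_pow]
    exact pow_pos (h j) _
  have h2 := mul_pos h1 h0
  have e1 : ∀ a b : ℝ, a * b * ((c : ℝ) * b) = ((c : ℝ) * a) * b ^ 2 := fun a b => by ring
  rw [e1] at h2
  by_contra h3
  have := mul_nonpos_of_nonpos_of_nonneg (not_lt.1 h3) (sq_nonneg (∏ j, (aeval t0 (f j) + (k j : ℝ)) ^ e j))
  linarith

open Classical in
/-- (1) The Hasse principle, and weak approximation at finite primes for locally soluble `V_k`, for all `k`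
outside a set of density `0`. (2) Weak approximation also at the real place. (3) The condition holds for fields of
odd prime degree and arbitrary exponents, together with subfields of cyclotomic fields of odd degree with a
single exponent, if no product of the discriminants of an odd number of the fields of the first kind is a
square, and `-1` is a norm then. (4) This is so for pure fields. -/
theorem result :
    (∀ {r s : ℕ} (K : Fin r → Type) [∀ i, Field (K i)] [∀ i, NumberField (K i)] (E : Fin r → Fin s → ℕ),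
      (∀ i, Admissible (K i)) → GaloisCondition K E →
      ∀ f : Fin s → ℤ[X], (∀ j, 1 ≤ (f j).natDegree) → ∀ c : Fin r → ℤ, (∀ i, c i ≠ 0) →
      ∀ (T : Finset Nat.Primes) (N B : ℕ), 1 ≤ B →
        Tendsto (fun X : ℕ => (#{k ∈ box f B X | (RealSoluble K f E c k ∧ LocallySoluble K f E c k) ∧
          ¬ Approximation K f E c T N k} : ℝ) / #(box f B X)) atTop (𝓝 0) ∧
        Tendsto (fun X : ℕ => (#{k ∈ box f B X | LocallySoluble K f E c k ∧
          ¬ WeakApproximation K f E c T N B X k} : ℝ) / #(box f B X)) atTop (𝓝 0)) ∧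
    (∀ {r s : ℕ} (K : Fin r → Type) [∀ i, Field (K i)] [∀ i, NumberField (K i)] (E : Fin r → Fin s → ℕ)
      (A : Finset (Fin r)),
      (∀ i ∈ A, (finrank ℚ (K i)).Prime ∧ finrank ℚ (K i) ≠ 2) →
      (∀ i, i ∉ A → (Odd (finrank ℚ (K i)) ∧ InCyclotomic (K i)) ∧
        ∃ j, (E i j).Coprime (finrank ℚ (K i)) ∧ ∀ j', j' ≠ j → E i j' = 0) →
      ((∀ S ⊆ A, Odd #S → ¬ IsSquare (∏ i ∈ S, discr (K i))) →
        GaloisCondition K E ∧ ∀ i, ∃ x : K i, Algebra.norm ℚ x = -1) ∧
      ((∀ i ∈ A, Pure (K i)) → ∀ S ⊆ A, Odd #S → ¬ IsSquare (∏ i ∈ S, discr (K i)))) := by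
  refine ⟨?_, ?_⟩
  · intro r s K _ _ E hadm hG f hf c hc T N B hB
    obtain ⟨L, _, _, _, m, ζ, ι, hm, hζ, hR⟩ := hG
    obtain ⟨M, hM⟩ : ∃ M, M = (2 * (∑ j, (f j).natDegree) + 3) * (2 * N + 2 * ∑ i, finrank ℚ (K i)) + 3 :=
      ⟨_, rfl⟩
    have hNM : N ≤ M := by
      rw [hM]
      nlinarith [Nat.zero_le (∑ i, finrank ℚ (K i)), Nat.zero_le (∑ j, (f j).natDegree)]
    refine ⟨?_, ?_⟩
    · apply tends_of hB
      intro ε hε
      obtain ⟨B', X1, hBB, hB', hreal⟩ := Pool.Agent.V7H6.NB.real_dens f hf B hB (ε / 2) (by positivity)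
      obtain ⟨X0, h⟩ := Pool.Agent.V7H6.NB.anyM K ι hm hζ E hR (fun i => (hadm i).1) (fun i => (hadm i).2) f hf c hc T M B' hB' (ε / 2) (by positivity)
      refine ⟨max X0 X1, fun X hX => ?_⟩
      obtain ⟨Bad, hB1, hB2⟩ := h X ((le_max_left _ _).trans hX)
      obtain ⟨Bad', hB3, hB4⟩ := hreal X ((le_max_right _ _).trans hX)
      refine ⟨Bad ∪ Bad', ?_, fun k hk hkB => ?_⟩
      · have h1 : (#(Bad ∪ Bad') : ℝ) ≤ #Bad + #Bad' := by exact_mod_cast card_union_le _ _
        linarith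
      rw [mem_union, not_or] at hkB
      rintro ⟨⟨⟨t0, z0, h01, h02⟩, hloc⟩, hno⟩
      apply hno
      intro t z hg
      obtain ⟨tr, htr, hval, hsgn⟩ := hB4 k hk hkB.2 t0 h01
      obtain ⟨q, y, h1, h2, -⟩ := near_of hc hM hg (hB2 k (fun j => (hk j).trans (by
          have : B * X ^ (f j).natDegree ≤ B' * X ^ (f j).natDegree := Nat.mul_le_mul_right _ hBB
          exact_mod_cast this)) hkB.1 (fun p => by
          obtain ⟨t, z, h1, h2⟩ := hloc p
          exact ⟨t, h1, fun i => ⟨z i, h2 i⟩⟩) t tr (lcM_of hNM hg) (fun i => by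
          rcases (hadm i).2 with h4 | h4
          · exact Or.inl h4
          · right
            have h5 := Pool.Agent.R479.NF.real_nonneg h4 (z0 i)
            rw [h02 i] at h5
            have h6 : 0 < (c i : ℝ) * ∏ j, (aeval t0 (f j) + (k j : ℝ)) ^ E i j :=
              lt_of_le_of_ne h5 (mul_ne_zero (by exact_mod_cast hc i)
                (prod_ne_zero_iff.2 fun j _ => pow_ne_zero _ (h01 j))).symm
            exact sign_of hsgn h6) htr hval)
      exact ⟨q, y, h1, h2⟩
    · apply tends_of hB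
      intro ε hε
      obtain ⟨X0, h⟩ := Pool.Agent.V7H6.NB.anyM K ι hm hζ E hR (fun i => (hadm i).1) (fun i => (hadm i).2) f hf c hc T M B hB ε hε
      refine ⟨X0, fun X hX => ?_⟩
      obtain ⟨Bad, hB1, hB2⟩ := h X hX
      refine ⟨Bad, hB1, fun k hk hkB => ?_⟩
      rintro ⟨hloc, hno⟩
      apply hno
      intro t z tr zr hg hreal htr hval
      refine near_of hc hM hg (hB2 k hk hkB (fun p => ?_) t tr (lcM_of hNM hg) (fun i => ?_) htr hval)
      · obtain ⟨t, z, h1, h2⟩ := hloc p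
        exact ⟨t, h1, fun i => ⟨z i, h2 i⟩⟩
      · rcases (hadm i).2 with h4 | h4
        · exact Or.inl h4
        · right
          have h5 := Pool.Agent.R479.NF.real_nonneg h4 (zr i)
          rw [hreal.2 i] at h5
          exact lt_of_le_of_ne h5 (mul_ne_zero (by exact_mod_cast hc i)
            (prod_ne_zero_iff.2 fun j _ => pow_ne_zero _ (hreal.1 j))).symm
  · intro r s K _ _ E A hA hC
    refine ⟨fun hsq => ⟨?_, fun i => ⟨-1, ?_⟩⟩, fun hP S hS hodd => ?_⟩
    · obtain ⟨L, h1, h2, h3, m, ζ, ι, hm, hζ, hR⟩ := Pool.Agent.V7H6.NB.resS_mixed K E A hA hC hsq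
      exact ⟨L, h1, h2, h3, m, ζ, ι, hm, hζ, hR⟩
    · have hodd : Odd (finrank ℚ (K i)) := by
        by_cases hi : i ∈ A
        · exact (hA i hi).1.odd_of_ne_two (hA i hi).2
        · exact (hC i hi).1.1
      have e : (-1 : K i) = algebraMap ℚ (K i) (-1) := by simp
      rw [e, Algebra.norm_algebraMap, hodd.neg_one_pow]
    · exact Pool.Agent.V7H6.NB.pure_nonsquare K S (fun i hi => hP i (hS hi)) hodd

end Pool.Agent.Results.MP_e426f4_ag.SimultaneousShiftsH6
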